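import Pool.Agent.MWH.StmtsB

set_option autoImplicit false

namespace Pool.Agent.MWH.H33

open Pool.Agent.Helper14_MV Pool.Agent.Helper2_MV Pool.Agent.MVO Pool.Agent.MWL Pool.Agent.MWS
open Pool.Agent.MWH

theorem tr_symm {θ : FIC} {k : ℕ} {a b : ℕ → ℕ} {i : ℕ} {s s' : Stt} (h : Tr θ k a b i s s') :
    Tr θ k a b i s' s := θ.symm h

theorem tr_trans {θ : FIC} {k : ℕ} {a b : ℕ → ℕ} {i : ℕ} {s s' s'' : Stt}
    (h : Tr θ k a b i s s') (h' : Tr θ k a b i s' s'') : Tr θ k a b i s s'' := θ.trans h h'

theorem tra_of {θ : FIC} {k : ℕ} {a b : ℕ → ℕ} {i : ℕ} (h1 : Tr θ k a b i Stt.xy Stt.ov)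
    (h2 : Tr θ k a b i Stt.yx Stt.ov) : TrA θ k a b i := by
  intro s s' _ _
  have key : ∀ t : Stt, Tr θ k a b i t Stt.ov := by
    intro t
    cases t with
    | xy => exact h1
    | yx => exact h2
    | ov => exact θ.refl _
  exact tr_trans (key s) (tr_symm (key s'))

theorem lhr (swt : SwtStmt) (pin : PinStmt) : LhrStmt := by
  intro β hβ k a b i p hv hai hbi hip hpk hap
  have hB : BaseH β := hβ.toBaseH
  have hle : β ≤ β := fun _ _ h => h
  have h1 : Tr β k a b i Stt.xy Stt.ov := by
    have h := pin β β hB hle 1 k (fun j => if j = 0 then i else p) (vc [1, 1]) (vc [2, 0]) a b 0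
      (by intro j hj; have : j = 0 := by omega
          subst this; simpa using hip) (by simpa using hpk)
      ⟨by omega, by decide, by decide, by decide, by decide, by decide⟩ (by simpa using hv)
      (by
        intro j hj
        have hj2 : j = 0 ∨ j = 1 := by omega
        rcases hj2 with rfl | rfl
        · simp [vc, hai]
          omega
        · simp [vc, hap])
      (by simp [vc, hai]) (by simp [vc]; omega) Stt.xy Stt.ov (by intro h; cases h)
      (by intro _; right; decide) hβ.k6
    simpa using h
  refine ⟨h1, ?_⟩
  rintro ⟨m, him, hmk, hbm⟩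
  have hpm : m ≠ p := by
    rintro rfl
    rcases hv.un m hmk (by omega) with h | h
    · exact hap h
    · omega
  apply tra_of h1
  rcases Nat.lt_or_gt_of_ne hpm with hlt | hlt
  · obtain ⟨hv', hsw⟩ := swt β β hB hle k a b i hv
    have h := pin β β hB hle 2 k (fun j => if j = 0 then i else if j = 1 then m else p)
      (vc [2, 2, 0]) (vc [1, 0, 1]) b a 0
      (by intro j hj
          have : j = 0 ∨ j = 1 := by omega
          rcases this with rfl | rfl
          · simpa using him
          · simpa using hlt) (by simpa using hpk)
      ⟨by omega, by decide, by decide, by decide, by decide, by decide⟩ (by simpa using hv')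
      (by
        intro j hj
        have hj2 : j = 0 ∨ j = 1 ∨ j = 2 := by omega
        rcases hj2 with rfl | rfl | rfl
        · simp [vc, hai]
          omega
        · simp [vc]
          omega
        · simp [vc, hap])
      (by simp [vc]; omega) (by simp [vc, hai]) Stt.xy Stt.ov (by intro h; cases h)
      (by intro _; left; decide) hβ.k7
    have h3 : Tr β k b a i Stt.xy Stt.ov := by simpa using h
    exact ((hsw Stt.yx Stt.ov (by intro h; cases h) (fun _ => Or.inr hbi)).2).2 h3
  · have h := pin β β hB hle 2 k (fun j => if j = 0 then i else if j = 1 then p else m)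
      (vc [1, 1, 0]) (vc [2, 0, 2]) a b 0
      (by intro j hj
          have : j = 0 ∨ j = 1 := by omega
          rcases this with rfl | rfl
          · simpa using hip
          · simpa using hlt) (by simpa using hmk)
      ⟨by omega, by decide, by decide, by decide, by decide, by decide⟩ (by simpa using hv)
      (by
        intro j hj
        have hj2 : j = 0 ∨ j = 1 ∨ j = 2 := by omega
        rcases hj2 with rfl | rfl | rfl
        · simp [vc, hai]
          omega
        · simp [vc, hap]
        · simp [vc]
          omega)
      (by simp [vc, hai]) (by simp [vc]; omega) Stt.xy Stt.yx (by intro h; cases h)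
      (by intro h; cases h) hβ.k3
    have h3 : Tr β k a b i Stt.xy Stt.yx := by simpa using h
    exact tr_trans (tr_symm h3) h1

end Pool.Agent.MWH.H33
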